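import Pool.Agent.MWLE.StmtsA

/-! # Row SIG of squad MWLE (helper39) -/

set_option autoImplicit false

namespace Pool.Agent.MWLE.H39

open Pool.Agent.Helper14_MV Pool.Agent.Helper2_MV
open Pool.Agent.MWK (pre)
open Pool.Agent.MWGN (Tau)

theorem filter_all {p : ℕ → Bool} {l : List ℕ} (h : ∀ a ∈ l, p a = true) : l.filter p = l :=
  List.filter_eq_self.2 h

theorem filter_none {p : ℕ → Bool} {l : List ℕ} (h : ∀ a ∈ l, p a = false) : l.filter p = [] := by
  rw [List.filter_eq_nil_iff]
  intro a ha
  rw [h a ha]
  simp

theorem sig : SigStmt := by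
  intro τ m hτ
  obtain ⟨hnd, hmem⟩ := hτ
  obtain ⟨α, γ, e1⟩ := List.append_of_mem ((hmem m).2 (le_refl m))
  obtain ⟨μ, ν, e2⟩ := List.append_of_mem ((hmem 0).2 (Nat.zero_le m))
  have hα : ∀ a ∈ α, a < m := by
    intro a ha
    have h1 : a ≤ m := (hmem a).1 (by rw [e1]; exact List.mem_append_left _ ha)
    have h2 : a ≠ m := by
      rintro rfl
      rw [e1] at hnd
      exact (List.nodup_append.1 hnd).2.2 a ha a List.mem_cons_self rfl
    omega
  have hγ : ∀ a ∈ γ, a < m := by
    intro a ha
    have h1 : a ≤ m := (hmem a).1 (by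
      rw [e1]
      exact List.mem_append_right _ (List.mem_cons_of_mem _ ha))
    have h2 : a ≠ m := by
      rintro rfl
      rw [e1] at hnd
      exact (List.nodup_cons.1 (List.nodup_append.1 hnd).2.1).1 ha
    omega
  have hμ : ∀ a ∈ μ, 1 ≤ a ∧ a ≤ m := by
    intro a ha
    have h1 : a ≤ m := (hmem a).1 (by rw [e2]; exact List.mem_append_left _ ha)
    have h2 : a ≠ 0 := by
      rintro rfl
      rw [e2] at hnd
      exact (List.nodup_append.1 hnd).2.2 0 ha 0 List.mem_cons_self rfl
    omega
  have hν : ∀ a ∈ ν, 1 ≤ a ∧ a ≤ m := by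
    intro a ha
    have h1 : a ≤ m := (hmem a).1 (by
      rw [e2]
      exact List.mem_append_right _ (List.mem_cons_of_mem _ ha))
    have h2 : a ≠ 0 := by
      rintro rfl
      rw [e2] at hnd
      exact (List.nodup_cons.1 (List.nodup_append.1 hnd).2.1).1 ha
    omega
  obtain ⟨σ, hσ⟩ : ∃ σ, σ = α.map (fun i => i + 1) ++ (μ.map (fun i => i + (m + 2)) ++
    ([m + 1] ++ ([m + 2] ++ (γ.map (fun i => i + 1) ++ (ν.map (fun i => i + (m + 2)) ++ [0]))))) :=
    ⟨_, rfl⟩
  have f1 : σ.filter (fun k => decide (1 ≤ k ∧ k ≤ m + 1)) = τ.map (fun i => i + 1) := by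
    have h1 : (α.map (fun i => i + 1)).filter (fun k => decide (1 ≤ k ∧ k ≤ m + 1)) =
        α.map (fun i => i + 1) := filter_all (by
      intro a ha
      obtain ⟨b, hb, rfl⟩ := List.mem_map.1 ha
      have := hα b hb
      exact decide_eq_true (by omega))
    have h2 : (μ.map (fun i => i + (m + 2))).filter (fun k => decide (1 ≤ k ∧ k ≤ m + 1)) = [] :=
      filter_none (by
      intro a ha
      obtain ⟨b, hb, rfl⟩ := List.mem_map.1 ha
      have := hμ b hb
      exact decide_eq_false (by omega))
    have h3 : [m + 1].filter (fun k => decide (1 ≤ k ∧ k ≤ m + 1)) = [m + 1] := filter_all (by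
      intro a ha
      rw [List.mem_singleton.1 ha]
      exact decide_eq_true (by omega))
    have h4 : [m + 2].filter (fun k => decide (1 ≤ k ∧ k ≤ m + 1)) = [] := filter_none (by
      intro a ha
      rw [List.mem_singleton.1 ha]
      exact decide_eq_false (by omega))
    have h5 : (γ.map (fun i => i + 1)).filter (fun k => decide (1 ≤ k ∧ k ≤ m + 1)) =
        γ.map (fun i => i + 1) := filter_all (by
      intro a ha
      obtain ⟨b, hb, rfl⟩ := List.mem_map.1 ha
      have := hγ b hb
      exact decide_eq_true (by omega))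
    have h6 : (ν.map (fun i => i + (m + 2))).filter (fun k => decide (1 ≤ k ∧ k ≤ m + 1)) = [] :=
      filter_none (by
      intro a ha
      obtain ⟨b, hb, rfl⟩ := List.mem_map.1 ha
      have := hν b hb
      exact decide_eq_false (by omega))
    have h7 : [0].filter (fun k => decide (1 ≤ k ∧ k ≤ m + 1)) = [] := filter_none (by
      intro a ha
      rw [List.mem_singleton.1 ha]
      exact decide_eq_false (by omega))
    rw [hσ]
    simp only [List.filter_append, h1, h2, h3, h4, h5, h6, h7, List.nil_append, List.append_nil]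
    rw [e1, List.map_append, List.map_cons]
    rfl
  have f3 : σ.filter (fun k => decide (m + 2 ≤ k)) = τ.map (fun i => i + (m + 2)) := by
    have h1 : (α.map (fun i => i + 1)).filter (fun k => decide (m + 2 ≤ k)) = [] := filter_none (by
      intro a ha
      obtain ⟨b, hb, rfl⟩ := List.mem_map.1 ha
      have := hα b hb
      exact decide_eq_false (by omega))
    have h2 : (μ.map (fun i => i + (m + 2))).filter (fun k => decide (m + 2 ≤ k)) =
        μ.map (fun i => i + (m + 2)) := filter_all (by
      intro a ha
      obtain ⟨b, hb, rfl⟩ := List.mem_map.1 ha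
      exact decide_eq_true (by omega))
    have h3 : [m + 1].filter (fun k => decide (m + 2 ≤ k)) = [] := filter_none (by
      intro a ha
      rw [List.mem_singleton.1 ha]
      exact decide_eq_false (by omega))
    have h4 : [m + 2].filter (fun k => decide (m + 2 ≤ k)) = [m + 2] := filter_all (by
      intro a ha
      rw [List.mem_singleton.1 ha]
      exact decide_eq_true (by omega))
    have h5 : (γ.map (fun i => i + 1)).filter (fun k => decide (m + 2 ≤ k)) = [] := filter_none (by
      intro a ha
      obtain ⟨b, hb, rfl⟩ := List.mem_map.1 ha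
      have := hγ b hb
      exact decide_eq_false (by omega))
    have h6 : (ν.map (fun i => i + (m + 2))).filter (fun k => decide (m + 2 ≤ k)) =
        ν.map (fun i => i + (m + 2)) := filter_all (by
      intro a ha
      obtain ⟨b, hb, rfl⟩ := List.mem_map.1 ha
      exact decide_eq_true (by omega))
    have h7 : [0].filter (fun k => decide (m + 2 ≤ k)) = [] := filter_none (by
      intro a ha
      rw [List.mem_singleton.1 ha]
      exact decide_eq_false (by omega))
    rw [hσ]
    simp only [List.filter_append, h1, h2, h3, h4, h5, h6, h7, List.nil_append, List.append_nil]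
    rw [e2, List.map_append, List.map_cons, Nat.zero_add]
    rfl
  have f2 : σ.filter (fun k => decide ((1 ≤ k ∧ k ≤ m) ∨ k = m + 2)) =
      τ.map (fun i => if i = m then m + 2 else i + 1) := by
    have h1 : (α.map (fun i => i + 1)).filter (fun k => decide ((1 ≤ k ∧ k ≤ m) ∨ k = m + 2)) =
        α.map (fun i => i + 1) := filter_all (by
      intro a ha
      obtain ⟨b, hb, rfl⟩ := List.mem_map.1 ha
      have := hα b hb
      exact decide_eq_true (by omega))
    have h2 : (μ.map (fun i => i + (m + 2))).filter
        (fun k => decide ((1 ≤ k ∧ k ≤ m) ∨ k = m + 2)) = [] := filter_none (by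
      intro a ha
      obtain ⟨b, hb, rfl⟩ := List.mem_map.1 ha
      have := hμ b hb
      exact decide_eq_false (by omega))
    have h3 : [m + 1].filter (fun k => decide ((1 ≤ k ∧ k ≤ m) ∨ k = m + 2)) = [] :=
      filter_none (by
      intro a ha
      rw [List.mem_singleton.1 ha]
      exact decide_eq_false (by omega))
    have h4 : [m + 2].filter (fun k => decide ((1 ≤ k ∧ k ≤ m) ∨ k = m + 2)) = [m + 2] :=
      filter_all (by
      intro a ha
      rw [List.mem_singleton.1 ha]
      exact decide_eq_true (by omega))
    have h5 : (γ.map (fun i => i + 1)).filter (fun k => decide ((1 ≤ k ∧ k ≤ m) ∨ k = m + 2)) =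
        γ.map (fun i => i + 1) := filter_all (by
      intro a ha
      obtain ⟨b, hb, rfl⟩ := List.mem_map.1 ha
      have := hγ b hb
      exact decide_eq_true (by omega))
    have h6 : (ν.map (fun i => i + (m + 2))).filter
        (fun k => decide ((1 ≤ k ∧ k ≤ m) ∨ k = m + 2)) = [] := filter_none (by
      intro a ha
      obtain ⟨b, hb, rfl⟩ := List.mem_map.1 ha
      have := hν b hb
      exact decide_eq_false (by omega))
    have h7 : [0].filter (fun k => decide ((1 ≤ k ∧ k ≤ m) ∨ k = m + 2)) = [] := filter_none (by
      intro a ha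
      rw [List.mem_singleton.1 ha]
      exact decide_eq_false (by omega))
    rw [hσ]
    simp only [List.filter_append, h1, h2, h3, h4, h5, h6, h7, List.nil_append, List.append_nil]
    rw [e1, List.map_append, List.map_cons, if_pos rfl]
    have h8 : α.map (fun i => if i = m then m + 2 else i + 1) = α.map (fun i => i + 1) :=
      List.map_congr_left (fun a ha => if_neg (by have := hα a ha; omega))
    have h9 : γ.map (fun i => if i = m then m + 2 else i + 1) = γ.map (fun i => i + 1) :=
      List.map_congr_left (fun a ha => if_neg (by have := hγ a ha; omega))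
    rw [h8, h9]
    rfl
  have mem1 : ∀ k, 1 ≤ k → k ≤ m + 1 → (k ∈ σ ↔ k ∈ τ.map (fun i => i + 1)) := by
    intro k h1 h2
    rw [← f1, List.mem_filter]
    exact ⟨fun h => ⟨h, decide_eq_true ⟨h1, h2⟩⟩, fun h => h.1⟩
  have mem3 : ∀ k, m + 2 ≤ k → (k ∈ σ ↔ k ∈ τ.map (fun i => i + (m + 2))) := by
    intro k h1
    rw [← f3, List.mem_filter]
    exact ⟨fun h => ⟨h, decide_eq_true h1⟩, fun h => h.1⟩
  -- the front part, without the last letter
  have hfront : ∃ σ', σ = σ' ++ [0] ∧ 0 ∉ σ' := by
    refine ⟨α.map (fun i => i + 1) ++ (μ.map (fun i => i + (m + 2)) ++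
      ([m + 1] ++ ([m + 2] ++ (γ.map (fun i => i + 1) ++ ν.map (fun i => i + (m + 2)))))), ?_, ?_⟩
    · rw [hσ]
      simp only [List.append_assoc]
    · simp
  obtain ⟨σ', hσ', h0'⟩ := hfront
  have hcount : ∀ k, σ.count k ≤ 1 := by
    intro k
    by_cases hk0 : k = 0
    · subst hk0
      rw [hσ', List.count_append, List.count_eq_zero.2 h0']
      simp
    · by_cases hk1 : k ≤ m + 1
      · have h1 : (σ.filter (fun k => decide (1 ≤ k ∧ k ≤ m + 1))).count k = σ.count k :=
          List.count_filter (decide_eq_true (by omega))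
        rw [← h1, f1]
        exact List.nodup_iff_count_le_one.1
          (hnd.map (fun a b h => by simpa using h)) k
      · have h1 : (σ.filter (fun k => decide (m + 2 ≤ k))).count k = σ.count k :=
          List.count_filter (decide_eq_true (by omega))
        rw [← h1, f3]
        exact List.nodup_iff_count_le_one.1
          (hnd.map (fun a b h => by simpa using h)) k
  refine ⟨σ, ⟨List.nodup_iff_count_le_one.2 hcount, ?_, f1, f2, f3, ?_, ?_⟩⟩
  · intro k
    by_cases hk0 : k = 0
    · subst hk0
      rw [hσ']
      simp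
    · by_cases hk1 : k ≤ m + 1
      · rw [mem1 k (by omega) hk1, List.mem_map]
        constructor
        · rintro ⟨a, ha, rfl⟩
          have := (hmem a).1 ha
          omega
        · intro _
          exact ⟨k - 1, (hmem _).2 (by omega), by omega⟩
      · rw [mem3 k (by omega), List.mem_map]
        constructor
        · rintro ⟨a, ha, rfl⟩
          have := (hmem a).1 ha
          omega
        · intro _
          exact ⟨k - (m + 2), (hmem _).2 (by omega), by omega⟩
  · have h1 : pre σ 0 = σ' := by
      rw [hσ']
      exact Pool.Agent.MWK.pre_split h0' []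
    rw [h1]
    have h2 : 1 ∈ σ := (mem1 1 (le_refl 1) (by omega)).2
      (List.mem_map.2 ⟨0, (hmem 0).2 (Nat.zero_le m), rfl⟩)
    rw [hσ'] at h2
    rcases List.mem_append.1 h2 with h3 | h3
    · exact h3
    · simp at h3
  · have h1 : σ = (α.map (fun i => i + 1) ++ (μ.map (fun i => i + (m + 2)) ++ [m + 1])) ++
        (m + 2) :: (γ.map (fun i => i + 1) ++ (ν.map (fun i => i + (m + 2)) ++ [0])) := by
      rw [hσ]
      simp only [List.append_assoc, List.cons_append, List.nil_append]
    have h2 : m + 2 ∉ α.map (fun i => i + 1) ++ (μ.map (fun i => i + (m + 2)) ++ [m + 1]) := by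
      intro h
      rcases List.mem_append.1 h with h3 | h3
      · obtain ⟨b, hb, hb2⟩ := List.mem_map.1 h3
        have := hα b hb
        omega
      · rcases List.mem_append.1 h3 with h4 | h4
        · obtain ⟨b, hb, hb2⟩ := List.mem_map.1 h4
          have := hμ b hb
          omega
        · have := List.mem_singleton.1 h4
          omega
    rw [h1, Pool.Agent.MWK.pre_split h2]
    simp

end Pool.Agent.MWLE.H39
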